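import Pool.Agent.Lib.MP_fa837f_gt.TS.Iface
import Pool.Agent.Lib.MP_2c1b2b_gt.H32.PL

/-!
# PREK: averages with a log-concave weight
-/

set_option autoImplicit false

open MeasureTheory

namespace Pool.Agent.Lib.MP_fa837f_gt.TS.H76

/-- The weight. -/
noncomputable def wt (p : ℝ) {n : ℕ} (r : Fin n → ℝ) : ℝ :=
  ∏ i, (p * Real.exp (p * r i - Real.exp (p * r i)))

theorem wt_pos {p : ℝ} (hp : 0 < p) {n : ℕ} (r : Fin n → ℝ) : 0 < wt p r :=
  Finset.prod_pos fun _ _ => mul_pos hp (Real.exp_pos _)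

theorem wt_cont (p : ℝ) (n : ℕ) : Continuous (wt p : (Fin n → ℝ) → ℝ) := by
  unfold wt
  fun_prop

theorem log_wt {p : ℝ} (hp : 0 < p) {n : ℕ} (r : Fin n → ℝ) :
    Real.log (wt p r) = ∑ i, (Real.log p + (p * r i - Real.exp (p * r i))) := by
  unfold wt
  rw [Real.log_prod (fun i _ => (mul_pos hp (Real.exp_pos _)).ne')]
  refine Finset.sum_congr rfl fun i _ => ?_
  rw [Real.log_mul hp.ne' (Real.exp_pos _).ne', Real.log_exp]

theorem wt_logc {p : ℝ} (hp : 0 < p) {n : ℕ} (r s : Fin n → ℝ) {a b : ℝ} (ha : 0 ≤ a)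
    (hb : 0 ≤ b) (hab : a + b = 1) :
    a * Real.log (wt p r) + b * Real.log (wt p s) ≤ Real.log (wt p (a • r + b • s)) := by
  rw [log_wt hp, log_wt hp, log_wt hp, Finset.mul_sum, Finset.mul_sum, ← Finset.sum_add_distrib]
  refine Finset.sum_le_sum fun i _ => ?_
  have h := convexOn_exp.2 (Set.mem_univ (p * r i)) (Set.mem_univ (p * s i)) ha hb hab
  simp only [smul_eq_mul] at h
  have e : p * (a • r + b • s) i = a * (p * r i) + b * (p * s i) := by
    simp only [Pi.add_apply, Pi.smul_apply, smul_eq_mul]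
    ring
  rw [e]
  have e2 : Real.log p = (a + b) * Real.log p := by rw [hab, one_mul]
  nlinarith [h, e2]

/-- Module PREK. -/
theorem prek : PrekStatement := by
  intro n V p hp hV hc hint
  have hp0 : 0 < p := by linarith
  have hcl : Continuous fun t => Real.log (V t) := by
    rw [← continuousOn_univ]
    exact hc.continuousOn isOpen_univ
  have hcV : Continuous V := by
    have h1 : V = fun t => Real.exp (Real.log (V t)) := by
      funext t
      rw [Real.exp_log (hV t)]
    rw [h1]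
    exact Real.continuous_exp.comp hcl
  obtain ⟨f, hf⟩ : ∃ f : (Fin n → ℝ) → (Fin n → ℝ) → ℝ, ∀ t r, f t r =
    V (fun i => t i + r i) * wt p r := ⟨_, fun _ _ => rfl⟩
  have hfe : ∀ t, (fun r : Fin n → ℝ => V (fun i => t i + r i) *
      ∏ i, (p * Real.exp (p * r i - Real.exp (p * r i)))) = f t := fun t => by
    funext r
    rw [hf]
    rfl
  have hfpos : ∀ t r, 0 < f t r := fun t r => by
    rw [hf]
    exact mul_pos (hV _) (wt_pos hp0 r)
  have hfc : ∀ t, Continuous (f t) := fun t => by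
    have h1 : f t = fun r => V (fun i => t i + r i) * wt p r := funext fun r => hf t r
    rw [h1]
    exact (hcV.comp (by fun_prop)).mul (wt_cont p n)
  have hfi : ∀ t, Integrable (f t) := fun t => by
    rw [← hfe]
    exact hint t
  have hpos : ∀ t, 0 < ∫ r, f t r := fun t => by
    rw [integral_pos_iff_support_of_nonneg (fun r => (hfpos t r).le) (hfi t)]
    have h1 : Function.support (f t) = Set.univ := by
      ext r
      simp [(hfpos t r).ne']
    rw [h1]
    exact Measure.measure_univ_pos.2 (NeZero.ne _)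
  have hlf : ∀ t r, Real.log (f t r) = Real.log (V (t + r)) + Real.log (wt p r) := fun t r => by
    rw [hf, Real.log_mul (hV _).ne' (wt_pos hp0 r).ne']
    rfl
  have key : ∀ x y r s : Fin n → ℝ, ∀ a b : ℝ, 0 ≤ a → 0 ≤ b → a + b = 1 →
      f x r ^ a * f y s ^ b ≤ f (a • x + b • y) (a • r + b • s) := by
    intro x y r s a b ha hb hab
    have h1 : 0 < f x r ^ a * f y s ^ b :=
      mul_pos (Real.rpow_pos_of_pos (hfpos _ _) _) (Real.rpow_pos_of_pos (hfpos _ _) _)
    rw [← Real.log_le_log_iff h1 (hfpos _ _),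
      Real.log_mul (Real.rpow_pos_of_pos (hfpos _ _) _).ne' (Real.rpow_pos_of_pos (hfpos _ _) _).ne',
      Real.log_rpow (hfpos _ _), Real.log_rpow (hfpos _ _), hlf, hlf, hlf]
    have h2 := hc.2 (Set.mem_univ (x + r)) (Set.mem_univ (y + s)) ha hb hab
    have h3 := wt_logc hp0 r s ha hb hab
    have e : a • (x + r) + b • (y + s) = a • x + b • y + (a • r + b • s) := by
      simp only [smul_add]
      abel
    rw [e] at h2
    simp only [smul_eq_mul] at h2
    nlinarith [h2, h3]
  refine ⟨fun t => by simpa only [hfe] using hpos t, ?_⟩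
  simp only [hfe]
  refine ⟨convex_univ, fun x _ y _ a b ha hb hab => ?_⟩
  simp only [smul_eq_mul]
  rcases ha.eq_or_lt with rfl | ha0
  · have : b = 1 := by linarith
    subst this
    simp
  rcases hb.eq_or_lt with rfl | hb0
  · have : a = 1 := by linarith
    subst this
    simp
  have hA : 1 - b = a := by linarith
  have hpl := Pool.Agent.Lib.MP_2c1b2b_gt.H32.pl_fin n b hb0 (by linarith)
    (fun r => ENNReal.ofReal (f x r)) (fun r => ENNReal.ofReal (f y r))
    (fun r => ENNReal.ofReal (f (a • x + b • y) r)) (hfc x).measurable.ennreal_ofReal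
    (hfc y).measurable.ennreal_ofReal (hfc _).measurable.ennreal_ofReal (fun r s => by
      rw [hA, ENNReal.ofReal_rpow_of_pos (hfpos _ _), ENNReal.ofReal_rpow_of_pos (hfpos _ _),
        ← ENNReal.ofReal_mul (Real.rpow_nonneg (hfpos _ _).le _)]
      exact ENNReal.ofReal_le_ofReal (key x y r s a b ha hb hab))
  rw [hA, ← ofReal_integral_eq_lintegral_ofReal (hfi _) (ae_of_all _ fun r => (hfpos _ r).le),
    ← ofReal_integral_eq_lintegral_ofReal (hfi _) (ae_of_all _ fun r => (hfpos _ r).le),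
    ← ofReal_integral_eq_lintegral_ofReal (hfi _) (ae_of_all _ fun r => (hfpos _ r).le),
    ENNReal.ofReal_rpow_of_pos (hpos _), ENNReal.ofReal_rpow_of_pos (hpos _),
    ← ENNReal.ofReal_mul (Real.rpow_nonneg (hpos _).le _),
    ENNReal.ofReal_le_ofReal_iff (hpos _).le] at hpl
  have h1 := Real.log_le_log (mul_pos (Real.rpow_pos_of_pos (hpos x) a)
    (Real.rpow_pos_of_pos (hpos y) b)) hpl
  rwa [Real.log_mul (Real.rpow_pos_of_pos (hpos _) _).ne' (Real.rpow_pos_of_pos (hpos _) _).ne',
    Real.log_rpow (hpos _), Real.log_rpow (hpos _)] at h1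

end Pool.Agent.Lib.MP_fa837f_gt.TS.H76
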